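import Pool.Agent.Run7.h205.PV.MD

/-! The piece LIP is `Pool.Agent.Run7.h205.PV.t_LIP`, proved in `Pool.Agent.Run7.h205.PV.MD`. -/
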