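import Pool.Agent.Run7.h343.PV.Iface
import Pool.Agent.W66.MA

/-!
# Pieces MD and LIP of project PV (helper343)
-/

set_option autoImplicit false

namespace Pool.Agent.Run7.h205.PV

open Finset Pool.Agent.Run7.h343.PV

/-! ### The sum without coprimality condition -/

noncomputable def m1 (k : ℕ) : ℝ := ∑ j ∈ Icc 1 k, mu j / j

lemma log_step (K : ℕ) (hK : 2 ≤ K) : 1 / ((Real.log ((K + 1 : ℕ) : ℝ)) ^ 2 * ((K + 1 : ℕ) : ℝ)) ≤
    1 / Real.log K - 1 / Real.log ((K + 1 : ℕ) : ℝ) := by
  have hK0 : (2 : ℝ) ≤ K := by exact_mod_cast hK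
  have hx : 0 < Real.log K := Real.log_pos (by linarith)
  have hK1 : ((K + 1 : ℕ) : ℝ) = K + 1 := by push_cast; ring
  rw [hK1]
  have h1 : Real.log ((K : ℝ) / (K + 1)) ≤ (K : ℝ) / (K + 1) - 1 :=
    Real.log_le_sub_one_of_pos (by positivity)
  rw [Real.log_div (by linarith) (by linarith)] at h1
  have h2 : (K : ℝ) / (K + 1) - 1 = -(1 / (K + 1)) := by field_simp; ring
  have h3 : 1 / ((K : ℝ) + 1) ≤ Real.log (K + 1) - Real.log K := by linarith
  have h4 : 0 < 1 / ((K : ℝ) + 1) := by positivity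
  set x := Real.log K with hxd
  set y := Real.log ((K : ℝ) + 1) with hyd
  have hxy : x ≤ y := by linarith
  have hy : 0 < y := by linarith
  have e1 : 1 / x - 1 / y = (y - x) / (x * y) := by field_simp
  have e2 : 1 / (y ^ 2 * ((K : ℝ) + 1)) = (1 / ((K : ℝ) + 1)) / (y * y) := by
    field_simp
  rw [e1, e2]
  calc (1 / ((K : ℝ) + 1)) / (y * y) ≤ (y - x) / (y * y) := by
        exact div_le_div_of_nonneg_right h3 (by positivity)
    _ ≤ (y - x) / (x * y) := by
        apply div_le_div_of_nonneg_left (by linarith) (by positivity)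
        exact mul_le_mul_of_nonneg_right hxy hy.le

lemma base : ∃ C : ℝ, 0 < C ∧ ∀ K : ℕ, ∑ k ∈ Icc 1 K, |m1 k| / k ≤ C := by
  obtain ⟨C, hC, h⟩ := Pool.Agent.W66.m0_bound 2
  have hm : ∀ k : ℕ, 2 ≤ k → |m1 k| ≤ C / Real.log k ^ 2 := by
    intro k hk
    have := h k hk
    have e : Ioc 0 k = Icc 1 k := by
      ext j
      rw [mem_Ioc, mem_Icc]
      omega
    rw [e] at this
    exact this
  set F : ℕ → ℝ := fun K => ∑ k ∈ Icc 1 K, |m1 k| / k with hF
  have hmono : Monotone F := by
    intro a b hab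
    apply sum_le_sum_of_subset_of_nonneg
    · exact Icc_subset_Icc le_rfl hab
    · intro i _ _
      positivity
  have hF0 : 0 ≤ F 2 := sum_nonneg fun i _ => by positivity
  have hl2 : 0 < Real.log 2 := Real.log_pos (by norm_num)
  have key : ∀ K : ℕ, 2 ≤ K → F K ≤ F 2 + C * (1 / Real.log 2 - 1 / Real.log K) := by
    intro K hK
    induction K, hK using Nat.le_induction with
    | base => simp
    | succ K hK ih =>
      have e : F (K + 1) = F K + |m1 (K + 1)| / ((K + 1 : ℕ) : ℝ) := by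
        simp only [hF]
        rw [sum_Icc_succ_top (by omega)]
      have h1 := hm (K + 1) (by omega)
      have h2 := log_step K hK
      have h3 : |m1 (K + 1)| / ((K + 1 : ℕ) : ℝ) ≤
          C * (1 / ((Real.log ((K + 1 : ℕ) : ℝ)) ^ 2 * ((K + 1 : ℕ) : ℝ))) := by
        calc |m1 (K + 1)| / ((K + 1 : ℕ) : ℝ) ≤
            (C / Real.log ((K + 1 : ℕ) : ℝ) ^ 2) / ((K + 1 : ℕ) : ℝ) :=
              div_le_div_of_nonneg_right h1 (by positivity)
          _ = _ := by
              rw [div_div]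
              ring
      have h4 := mul_le_mul_of_nonneg_left h2 hC.le
      rw [e]
      linarith
  refine ⟨F 2 + C * (1 / Real.log 2) + 1, by positivity, fun K => ?_⟩
  have hpos : 0 ≤ C * (1 / Real.log 2) := by positivity
  rcases Nat.lt_or_ge K 2 with hK | hK
  · have := hmono hK.le
    simp only [hF] at this ⊢
    linarith
  · have h1 := key K hK
    have h2 : 0 ≤ C * (1 / Real.log (K : ℝ)) := by
      have : 0 ≤ Real.log (K : ℝ) := Real.log_natCast_nonneg K
      positivity
    simp only [hF] at h1 ⊢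
    have e : C * (1 / Real.log 2 - 1 / Real.log (K : ℝ)) =
      C * (1 / Real.log 2) - C * (1 / Real.log (K : ℝ)) := by ring
    linarith

/-! ### Adding a prime -/

open Classical in
/-- the sum over the integers not divisible by the primes of `T` -/
noncomputable def mT (T : Finset ℕ) (k : ℕ) : ℝ :=
  ∑ j ∈ (Icc 1 k).filter (fun j => ∀ q ∈ T, ¬ q ∣ j), mu j / j

lemma mT_zero (T : Finset ℕ) : mT T 0 = 0 := by
  simp [mT]

lemma mu_mul_prime (p j : ℕ) (hp : p.Prime) (hj : ¬ p ∣ j) : mu (p * j) = - mu j := by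
  unfold mu
  have h : Nat.Coprime p j := (Nat.Prime.coprime_iff_not_dvd hp).2 hj
  rw [ArithmeticFunction.isMultiplicative_moebius.map_mul_of_coprime h,
    ArithmeticFunction.moebius_apply_prime hp]
  push_cast
  ring

lemma mu_mul_prime' (p j : ℕ) (hp : p.Prime) (hj : p ∣ j) : mu (p * j) = 0 := by
  unfold mu
  rw [ArithmeticFunction.moebius_eq_zero_of_not_squarefree]
  · simp
  · intro h
    have h1 : IsUnit p := h p (Nat.mul_dvd_mul_left p hj)
    exact hp.one_lt.ne' (Nat.isUnit_iff.1 h1)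

lemma mT_rec (T : Finset ℕ) (hT : ∀ q ∈ T, q.Prime) (p : ℕ) (hp : p.Prime) (hpT : p ∉ T) (k : ℕ) :
    mT (insert p T) k = mT T k + 1 / p * mT (insert p T) (k / p) := by
  classical
  have hp0 : (0 : ℝ) < p := by exact_mod_cast hp.pos
  have hsplit : mT T k = mT (insert p T) k +
      ∑ j ∈ (Icc 1 k).filter (fun j => (∀ q ∈ T, ¬ q ∣ j) ∧ p ∣ j), mu j / j := by
    unfold mT
    rw [← sum_filter_add_sum_filter_not ((Icc 1 k).filter (fun j => ∀ q ∈ T, ¬ q ∣ j))
      (fun j => ¬ p ∣ j)]
    rw [filter_filter, filter_filter]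
    congr 1
    · apply sum_congr _ (fun _ _ => rfl)
      ext j
      simp only [mem_filter, mem_insert, forall_eq_or_imp]
      tauto
    · apply sum_congr _ (fun _ _ => rfl)
      ext j
      simp only [mem_filter, not_not]
  have hsec : ∑ j ∈ (Icc 1 k).filter (fun j => (∀ q ∈ T, ¬ q ∣ j) ∧ p ∣ j), mu j / j =
      ∑ i ∈ (Icc 1 (k / p)).filter (fun i => ∀ q ∈ T, ¬ q ∣ i),
        mu (p * i) / ((p * i : ℕ) : ℝ) := by
    symm
    refine sum_nbij' (fun i => p * i) (fun j => j / p) ?_ ?_ ?_ ?_ ?_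
    · intro i hi
      rw [mem_filter, mem_Icc] at hi
      rw [mem_filter, mem_Icc]
      refine ⟨⟨?_, ?_⟩, ?_, dvd_mul_right _ _⟩
      · exact Nat.mul_pos hp.pos hi.1.1
      · calc p * i ≤ p * (k / p) := Nat.mul_le_mul_left _ hi.1.2
          _ ≤ k := Nat.mul_div_le k p
      · intro q hq hqd
        rcases (hT q hq).dvd_mul.1 hqd with h | h
        · have : q = p := (Nat.prime_dvd_prime_iff_eq (hT q hq) hp).1 h
          exact hpT (this ▸ hq)
        · exact hi.2 q hq h
    · intro j hj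
      rw [mem_filter, mem_Icc] at hj
      obtain ⟨⟨h1, h2⟩, h3, i, rfl⟩ := hj
      rw [Nat.mul_div_cancel_left _ hp.pos, mem_filter, mem_Icc]
      refine ⟨⟨?_, ?_⟩, ?_⟩
      · rcases Nat.eq_zero_or_pos i with h | h
        · subst h; simp at h1
        · exact h
      · exact (Nat.le_div_iff_mul_le hp.pos).2 (by rw [mul_comm]; exact h2)
      · intro q hq hqd
        exact h3 q hq (Dvd.dvd.mul_left hqd p)
    · intro i _
      exact Nat.mul_div_cancel_left _ hp.pos
    · intro j hj
      rw [mem_filter] at hj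
      exact Nat.mul_div_cancel' hj.2.2
    · intro i _
      rfl
  have hthird : ∑ i ∈ (Icc 1 (k / p)).filter (fun i => ∀ q ∈ T, ¬ q ∣ i),
        mu (p * i) / ((p * i : ℕ) : ℝ) = -(1 / p * mT (insert p T) (k / p)) := by
    unfold mT
    rw [mul_sum, ← sum_neg_distrib, sum_filter, sum_filter]
    apply sum_congr rfl
    intro i _
    by_cases h1 : ∀ q ∈ T, ¬ q ∣ i
    · rw [if_pos h1]
      by_cases h2 : p ∣ i
      · rw [if_neg, mu_mul_prime' p i hp h2, zero_div]
        intro h
        exact h p (mem_insert_self p T) h2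
      · rw [if_pos, mu_mul_prime p i hp h2]
        · push_cast
          rcases eq_or_ne (i : ℝ) 0 with hi | hi
          · rw [hi]; simp
          · field_simp
        · intro q hq
          rw [mem_insert] at hq
          rcases hq with rfl | hq
          · exact h2
          · exact h1 q hq
    · rw [if_neg h1, if_neg]
      intro h
      exact h1 fun q hq => h q (mem_insert_of_mem hq)
  rw [hsplit, hsec, hthird]
  ring

lemma sum_div_le (g : ℕ → ℝ) (hg : ∀ k, 0 ≤ g k) (hg0 : g 0 = 0) (p : ℕ) (hp : 0 < p) (K : ℕ) :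
    ∑ k ∈ Icc 1 K, g (k / p) / k ≤ ∑ a ∈ Icc 1 K, g a / a := by
  classical
  have h1 : ∑ k ∈ Icc 1 K, g (k / p) / k =
      ∑ a ∈ range (K + 1), ∑ k ∈ (Icc 1 K).filter (fun k => k / p = a), g (k / p) / k := by
    rw [sum_fiberwise_of_maps_to]
    intro k hk
    rw [mem_Icc] at hk
    rw [mem_range]
    have := Nat.div_le_self k p
    omega
  rw [h1, sum_range_succ', ]
  have h0 : ∑ k ∈ (Icc 1 K).filter (fun k => k / p = 0), g (k / p) / k = 0 := by
    apply sum_eq_zero
    intro k hk
    rw [mem_filter] at hk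
    rw [hk.2, hg0, zero_div]
  rw [h0, add_zero]
  have h2 : ∑ a ∈ Icc 1 K, g a / a = ∑ a ∈ range K, g (a + 1) / ((a + 1 : ℕ) : ℝ) := by
    rw [range_eq_Ico, sum_Ico_add' (fun a => g a / (a : ℝ)) 0 K 1]
    apply sum_congr _ (fun _ _ => rfl)
    ext a
    rw [mem_Icc, mem_Ico]
    omega
  rw [h2]
  apply sum_le_sum
  intro a _
  have hpR : (0 : ℝ) < p := by exact_mod_cast hp
  calc ∑ k ∈ (Icc 1 K).filter (fun k => k / p = a + 1), g (k / p) / k
      ≤ ∑ k ∈ (Icc 1 K).filter (fun k => k / p = a + 1), g (a + 1) / (((a + 1 : ℕ) : ℝ) * p) := by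
        apply sum_le_sum
        intro k hk
        rw [mem_filter] at hk
        rw [hk.2]
        apply div_le_div_of_nonneg_left (hg _) (by positivity)
        have : (a + 1) * p ≤ k := by
          rw [← hk.2]
          exact Nat.div_mul_le_self k p
        exact_mod_cast this
    _ = (((Icc 1 K).filter (fun k => k / p = a + 1)).card : ℝ) *
          (g (a + 1) / (((a + 1 : ℕ) : ℝ) * p)) := by
        rw [sum_const, nsmul_eq_mul]
    _ ≤ (p : ℝ) * (g (a + 1) / (((a + 1 : ℕ) : ℝ) * p)) := by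
        apply mul_le_mul_of_nonneg_right
        · have hsub : (Icc 1 K).filter (fun k => k / p = a + 1) ⊆
              Ico ((a + 1) * p) ((a + 1) * p + p) := by
            intro k hk
            rw [mem_filter] at hk
            rw [mem_Ico]
            have e1 : (a + 1) * p ≤ k := by
              rw [← hk.2]
              exact Nat.div_mul_le_self k p
            have e2 : k < (a + 1 + 1) * p := by
              rw [← Nat.div_lt_iff_lt_mul hp, hk.2]
              omega
            have e3 : (a + 1 + 1) * p = (a + 1) * p + p := by ring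
            omega
          have := card_le_card hsub
          rw [Nat.card_Ico, Nat.add_sub_cancel_left] at this
          exact_mod_cast this
        · have := hg (a + 1)
          positivity
    _ = g (a + 1) / ((a + 1 : ℕ) : ℝ) := by
        have : ((a + 1 : ℕ) : ℝ) ≠ 0 := by positivity
        field_simp

lemma step (T : Finset ℕ) (hT : ∀ q ∈ T, q.Prime) (p : ℕ) (hp : p.Prime) (hpT : p ∉ T) (K : ℕ) :
    ∑ k ∈ Icc 1 K, |mT (insert p T) k| / k ≤
      (1 - (p : ℝ)⁻¹)⁻¹ * ∑ k ∈ Icc 1 K, |mT T k| / k := by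
  have hp2 : (2 : ℝ) ≤ p := by exact_mod_cast hp.two_le
  set A := ∑ k ∈ Icc 1 K, |mT (insert p T) k| / k with hA
  have h1 : A ≤ ∑ k ∈ Icc 1 K, |mT T k| / k + 1 / p * A := by
    calc A ≤ ∑ k ∈ Icc 1 K, (|mT T k| / k + 1 / p * (|mT (insert p T) (k / p)| / k)) := by
          apply sum_le_sum
          intro k _
          have h2 : |mT (insert p T) k| ≤ |mT T k| + 1 / p * |mT (insert p T) (k / p)| := by
            rw [mT_rec T hT p hp hpT k]
            refine (abs_add_le _ _).trans ?_
            rw [abs_mul, abs_of_nonneg (show (0 : ℝ) ≤ 1 / p by positivity)]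
          calc |mT (insert p T) k| / k ≤
              (|mT T k| + 1 / p * |mT (insert p T) (k / p)|) / k :=
                div_le_div_of_nonneg_right h2 (by positivity)
            _ = _ := by ring
      _ = ∑ k ∈ Icc 1 K, |mT T k| / k +
          1 / p * ∑ k ∈ Icc 1 K, |mT (insert p T) (k / p)| / k := by
          rw [sum_add_distrib, mul_sum]
      _ ≤ _ := by
          have := sum_div_le (fun k => |mT (insert p T) k|) (fun _ => abs_nonneg _)
            (by simp [mT_zero]) p hp.pos K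
          have h3 := mul_le_mul_of_nonneg_left this (show (0 : ℝ) ≤ 1 / p by positivity)
          linarith
  have h4 : 0 < 1 - (p : ℝ)⁻¹ := by
    have : (p : ℝ)⁻¹ ≤ 1 / 2 := by
      rw [inv_eq_one_div]
      exact one_div_le_one_div_of_le (by norm_num) hp2
    linarith
  rw [← div_eq_inv_mul, le_div_iff₀ h4]
  have e : A * (1 - (p : ℝ)⁻¹) = A - 1 / p * A := by ring
  rw [e]
  linarith

lemma prod_bd (C : ℝ) (hC : ∀ K : ℕ, ∑ k ∈ Icc 1 K, |m1 k| / k ≤ C) (T : Finset ℕ)
    (hT : ∀ q ∈ T, q.Prime) (K : ℕ) :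
    ∑ k ∈ Icc 1 K, |mT T k| / k ≤ (∏ p ∈ T, (1 - (p : ℝ)⁻¹)⁻¹) * C := by
  classical
  induction T using Finset.induction_on with
  | empty =>
    have : ∀ k, mT ∅ k = m1 k := by
      intro k
      unfold mT m1
      simp
    simp only [this, prod_empty, one_mul]
    exact hC K
  | insert p T hpT ih =>
    rw [prod_insert hpT]
    have hp : p.Prime := hT p (mem_insert_self _ _)
    have hT' : ∀ q ∈ T, q.Prime := fun q hq => hT q (mem_insert_of_mem hq)
    have h1 := step T hT' p hp hpT K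
    have h2 := ih hT'
    have hp2 : (2 : ℝ) ≤ p := by exact_mod_cast hp.two_le
    have h4 : 0 ≤ (1 - (p : ℝ)⁻¹)⁻¹ := by
      apply inv_nonneg.2
      have : (p : ℝ)⁻¹ ≤ 1 / 2 := by
        rw [inv_eq_one_div]
        exact one_div_le_one_div_of_le (by norm_num) hp2
      linarith
    have h5 := mul_le_mul_of_nonneg_left h2 h4
    rw [mul_assoc]
    linarith

theorem t_MD : S_MD := by
  obtain ⟨C, hC, h⟩ := base
  refine ⟨C, hC, fun d hd K => ?_⟩
  have h1 := prod_bd C h d.primeFactors (fun q hq => Nat.prime_of_mem_primeFactors hq) K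
  have hm : ∀ k, mT d.primeFactors k =
      ∑ j ∈ (Icc 1 k).filter (fun j => j.Coprime d), mu j / j := by
    intro k
    unfold mT
    apply sum_congr _ (fun _ _ => rfl)
    ext j
    rw [mem_filter, mem_filter]
    apply and_congr_right
    intro hj
    rw [mem_Icc] at hj
    constructor
    · intro h2
      apply Nat.Coprime.symm
      rw [Nat.coprime_iff_gcd_eq_one]
      by_contra hc
      obtain ⟨q, hq, hqd⟩ := Nat.exists_prime_and_dvd hc
      exact h2 q (Nat.mem_primeFactors.2 ⟨hq, hqd.trans (Nat.gcd_dvd_left _ _), by omega⟩)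
        (hqd.trans (Nat.gcd_dvd_right _ _))
    · intro h2 q hq hqd
      have h3 := Nat.dvd_gcd hqd (Nat.dvd_of_mem_primeFactors hq)
      rw [Nat.coprime_iff_gcd_eq_one.1 h2] at h3
      exact (Nat.prime_of_mem_primeFactors hq).one_lt.ne' (Nat.dvd_one.1 h3)
  simp only [hm] at h1
  refine h1.trans (le_of_eq ?_)
  have h2 : (d.totient : ℝ) = d * ∏ p ∈ d.primeFactors, (1 - (p : ℝ)⁻¹) := by
    have := congrArg (fun q : ℚ => (q : ℝ)) (Nat.totient_eq_mul_prod_factors d)
    push_cast at this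
    exact this
  have hd0 : (d : ℝ) ≠ 0 := by
    have : 0 < d := hd
    positivity
  have ht0 : (d.totient : ℝ) ≠ 0 := by
    have : 0 < d.totient := Nat.totient_pos.2 hd
    positivity
  have hP : ∏ p ∈ d.primeFactors, (1 - (p : ℝ)⁻¹) ≠ 0 := by
    intro h0
    rw [h0, mul_zero] at h2
    exact ht0 h2
  rw [prod_inv_distrib, h2]
  field_simp

/-! ### LIP -/

lemma abel (d : ℕ) (G : ℕ → ℝ) (K : ℕ) :
    ∑ k ∈ (Icc 1 K).filter (fun k => k.Coprime d), mu k / k * G k =
      ∑ k ∈ Icc 1 K, (∑ j ∈ (Icc 1 k).filter (fun j => j.Coprime d), mu j / j) *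
        (G k - G (k + 1)) +
      (∑ j ∈ (Icc 1 K).filter (fun j => j.Coprime d), mu j / j) * G (K + 1) := by
  induction K with
  | zero => simp
  | succ K ih =>
    have h1 : ∀ f : ℕ → ℝ, ∑ j ∈ (Icc 1 (K + 1)).filter (fun j => j.Coprime d), f j =
        ∑ j ∈ (Icc 1 K).filter (fun j => j.Coprime d), f j +
          (if (K + 1).Coprime d then f (K + 1) else 0) := by
      intro f
      rw [sum_filter, sum_Icc_succ_top (by omega), ← sum_filter]
    rw [h1 (fun k => mu k / k * G k), ih, sum_Icc_succ_top (by omega), h1 (fun j => mu j / j)]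
    split_ifs <;> ring

theorem t_LIP (h : S_MD) : S_LIP := by
  obtain ⟨C, hC, h⟩ := h
  refine ⟨C, hC, fun d hd Λ G K hΛ hG0 hG => ?_⟩
  rw [abel d G K, hG0 (K + 1) (by omega), mul_zero, add_zero]
  calc |∑ k ∈ Icc 1 K, (∑ j ∈ (Icc 1 k).filter (fun j => j.Coprime d), mu j / j) *
        (G k - G (k + 1))|
      ≤ ∑ k ∈ Icc 1 K, |(∑ j ∈ (Icc 1 k).filter (fun j => j.Coprime d), mu j / j) *
        (G k - G (k + 1))| := abs_sum_le_sum_abs _ _
    _ ≤ ∑ k ∈ Icc 1 K, Λ * (|∑ j ∈ (Icc 1 k).filter (fun j => j.Coprime d), mu j / j| / k) := by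
        apply sum_le_sum
        intro k hk
        rw [mem_Icc] at hk
        rw [abs_mul, abs_sub_comm]
        calc |∑ j ∈ (Icc 1 k).filter (fun j => j.Coprime d), mu j / j| * |G (k + 1) - G k|
            ≤ |∑ j ∈ (Icc 1 k).filter (fun j => j.Coprime d), mu j / j| * (Λ / k) :=
              mul_le_mul_of_nonneg_left (hG k hk.1) (abs_nonneg _)
          _ = _ := by ring
    _ = Λ * ∑ k ∈ Icc 1 K, |∑ j ∈ (Icc 1 k).filter (fun j => j.Coprime d), mu j / j| / k := by
        rw [mul_sum]
    _ ≤ Λ * (C * ((d : ℝ) / Nat.totient d)) := mul_le_mul_of_nonneg_left (h d hd K) hΛ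
    _ = _ := by ring

end Pool.Agent.Run7.h205.PV
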